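import Pool.Agent.Helper37.SN.Stmts

/-! module PROJ -/

namespace Pool.Agent.Helper37.SN

open MeasureTheory
open scoped ENNReal

theorem st_PROJ : ST_PROJ := by
  intro e F hF
  have hp : IsProbabilityMeasure haar1 :=
    inferInstanceAs (IsProbabilityMeasure (AddCircle.haarAddCircle : Measure (AddCircle (1 : ℝ))))
  have h1 := measurePreserving_piFinSuccAbove
    (fun _ : Fin (e + 1 + 1) => (haar1 : Measure UnitAddCircle)) 0
  have h2 : MeasurePreserving (Function.eval (0 : Fin (e + 1)))
      (Measure.pi (fun _ : Fin (e + 1) => haar1)) haar1 :=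
    measurePreserving_eval (fun _ : Fin (e + 1) => haar1) 0
  have h3 : MeasurePreserving (Prod.map (id : UnitAddCircle → UnitAddCircle)
      (Function.eval (0 : Fin (e + 1)) : TT (e + 1) → UnitAddCircle))
      (haar1.prod (Measure.pi (fun _ : Fin (e + 1) => haar1))) (haar1.prod haar1) :=
    (MeasurePreserving.id haar1).prod h2
  have h4 := h3.comp h1
  have h5 := h4.lintegral_comp hF
  rw [lintegral_prod _ hF.aemeasurable] at h5
  rw [← h5]
  rfl

end Pool.Agent.Helper37.SN
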